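import Pool.Agent.H692R2.USS.Iface

set_option autoImplicit false

/-!
# Task C (one block of primes catches almost all `n`): counting and Chebyshev lemmas
-/

namespace Pool.Agent.H233R3.USS

open Finset
open scoped Classical

theorem sum_mod (d t : ℕ) (f : ℕ → ℝ) :
    ∑ n ∈ range (d * t), f (n % d) = t * ∑ r ∈ range d, f r := by
  induction t with
  | zero => simp
  | succ t ih =>
    rw [Nat.mul_succ, Finset.sum_range_add, ih]
    have : ∑ r ∈ range d, f ((d * t + r) % d) = ∑ r ∈ range d, f r := by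
      apply Finset.sum_congr rfl
      intro r hr
      rw [Nat.mul_add_mod, Nat.mod_eq_of_lt (Finset.mem_range.1 hr)]
    rw [this]
    push_cast
    ring

theorem sum_mod' (d M : ℕ) (hdM : d ∣ M) (hM : 0 < M) (f : ℕ → ℝ) :
    ∑ n ∈ range M, f (n % d) = (M : ℝ) / d * ∑ r ∈ range d, f r := by
  obtain ⟨t, rfl⟩ := hdM
  have hd : 0 < d := Nat.pos_of_mul_pos_right hM |> fun h => by
    rcases Nat.eq_zero_or_pos d with h0 | h0
    · subst h0; simp at hM
    · exact h0
  rw [sum_mod]
  have hd' : (d : ℝ) ≠ 0 := by positivity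
  push_cast
  field_simp

/-- the number of `n < M` in prescribed residue classes -/
theorem sum_ind (d M : ℕ) (hdM : d ∣ M) (hM : 0 < M) (I : Finset ℕ) (hI : I ⊆ range d) :
    ∑ n ∈ range M, (if n % d ∈ I then (1 : ℝ) else 0) = (M : ℝ) * ((I.card : ℝ) / d) := by
  rw [sum_mod' d M hdM hM (fun r => if r ∈ I then (1 : ℝ) else 0)]
  rw [Finset.sum_ite_mem, Finset.inter_eq_right.2 hI, Finset.sum_const, nsmul_eq_mul, mul_one]
  ring

theorem card_mod (l M r : ℕ) (hl : l ∣ M) (hM : 0 < M) :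
    (((range M).filter (fun n => n % l = r)).card : ℝ) ≤ (M : ℝ) / l := by
  rcases Nat.lt_or_ge r l with h | h
  · have := sum_ind l M hl hM {r} (by intro b hb; rw [Finset.mem_singleton] at hb; subst hb; exact Finset.mem_range.2 h)
    simp only [Finset.mem_singleton, Finset.card_singleton, Nat.cast_one] at this
    rw [Finset.card_filter]
    push_cast
    rw [this]
    apply le_of_eq; ring
  · have : (range M).filter (fun n => n % l = r) = ∅ := by
      apply Finset.filter_eq_empty_iff.2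
      intro n _ hn
      have hl0 : 0 < l := by
        rcases Nat.eq_zero_or_pos l with h0 | h0
        · subst h0
          obtain ⟨t, ht⟩ := hl
          omega
        · exact h0
      have := Nat.mod_lt n hl0
      omega
    rw [this]; simp; positivity

theorem card_pair (d d' M b b' : ℕ) (h : d ∣ M) (h' : d' ∣ M) (hM : 0 < M) :
    (((range M).filter (fun n => n % d = b ∧ n % d' = b')).card : ℝ) ≤
      if b' ≡ b [MOD Nat.gcd d d'] then (M : ℝ) * (Nat.gcd d d' / ((d : ℝ) * d')) else 0 := by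
  have hd : 0 < d := Nat.pos_of_dvd_of_pos h hM
  have hd' : 0 < d' := Nat.pos_of_dvd_of_pos h' hM
  rcases Finset.eq_empty_or_nonempty ((range M).filter (fun n => n % d = b ∧ n % d' = b')) with h0 | h0
  · rw [h0]; simp only [Finset.card_empty, Nat.cast_zero]
    split_ifs <;> positivity
  · obtain ⟨n0, hn0⟩ := h0
    rw [Finset.mem_filter] at hn0
    have e1 : n0 ≡ b [MOD d] := by
      rw [← hn0.2.1]; exact (Nat.mod_modEq n0 d).symm
    have e2 : n0 ≡ b' [MOD d'] := by
      rw [← hn0.2.2]; exact (Nat.mod_modEq n0 d').symm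
    have e3 : b' ≡ b [MOD Nat.gcd d d'] :=
      ((e2.of_dvd (Nat.gcd_dvd_right d d')).symm).trans (e1.of_dvd (Nat.gcd_dvd_left d d'))
    rw [if_pos e3]
    have hsub : (range M).filter (fun n => n % d = b ∧ n % d' = b') ⊆
        (range M).filter (fun n => n % (Nat.lcm d d') = n0 % (Nat.lcm d d')) := by
      intro n hn
      rw [Finset.mem_filter] at hn ⊢
      refine ⟨hn.1, ?_⟩
      have f1 : n ≡ n0 [MOD d] := by
        show n % d = n0 % d
        rw [hn.2.1, hn0.2.1]
      have f2 : n ≡ n0 [MOD d'] := by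
        show n % d' = n0 % d'
        rw [hn.2.2, hn0.2.2]
      rw [Nat.modEq_iff_dvd] at f1 f2
      show n ≡ n0 [MOD Nat.lcm d d']
      rw [Nat.modEq_iff_dvd]
      have := Int.coe_lcm_dvd f1 f2
      simpa using this
    have hl : Nat.lcm d d' ∣ M := Nat.lcm_dvd h h'
    refine le_trans (by exact_mod_cast Finset.card_le_card hsub) (le_trans (card_mod _ M _ hl hM) ?_)
    have hg : (Nat.gcd d d' : ℝ) * (Nat.lcm d d' : ℝ) = (d : ℝ) * d' := by
      exact_mod_cast Nat.gcd_mul_lcm d d'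
    have hlp : (0 : ℝ) < Nat.lcm d d' := by exact_mod_cast Nat.lcm_pos hd hd'
    have hgp : (0 : ℝ) < Nat.gcd d d' := by exact_mod_cast Nat.gcd_pos_of_pos_left _ hd
    rw [← hg]
    apply le_of_eq
    field_simp

theorem card_cong (a e g b : ℕ) (hg : 0 < g) :
    (((Ico a e).filter (fun n => n ≡ b [MOD g])).card : ℝ) ≤ ((Ico a e).card : ℝ) / g + 1 := by
  have h := Nat.Ico_filter_modEq_card a e hg b
  rcases Nat.lt_or_ge e a with hlt | hge
  · rw [Finset.Ico_eq_empty_of_le hlt.le]; simp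
  · have hgr : (0 : ℝ) < g := by exact_mod_cast hg
    have hgq : (0 : ℚ) < g := by exact_mod_cast hg
    have h2 : (((Ico a e).filter (fun n => n ≡ b [MOD g])).card : ℚ) ≤
        ((Ico a e).card : ℚ) / g + 1 := by
      have h3 : (((Ico a e).filter (fun n => n ≡ b [MOD g])).card : ℤ) =
          max (⌈((e : ℚ) - b) / g⌉ - ⌈((a : ℚ) - b) / g⌉) 0 := by
        rw [← h]
      have h4 : (((Ico a e).filter (fun n => n ≡ b [MOD g])).card : ℚ) =
          ((max (⌈((e : ℚ) - b) / g⌉ - ⌈((a : ℚ) - b) / g⌉) 0 : ℤ) : ℚ) := by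
        rw [← h3]; simp
      rw [h4]
      push_cast
      rw [Nat.card_Ico]
      apply max_le
      · have c1 := Int.ceil_lt_add_one (((e : ℚ) - b) / g)
        have c2 := Int.le_ceil (((a : ℚ) - b) / g)
        rw [Nat.cast_sub hge]
        have : ((e : ℚ) - b) / g - ((a : ℚ) - b) / g = ((e : ℚ) - a) / g := by ring
        linarith
      · have : (0 : ℚ) ≤ ((e - a : ℕ) : ℚ) / g := by positivity
        linarith
    have h5 := (Rat.cast_le (K := ℝ)).2 h2
    push_cast at h5
    exact h5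

/-- pairs of residue classes -/
theorem sum_pair (d d' M a e : ℕ) (I : Finset ℕ) (h : d ∣ M) (h' : d' ∣ M) (hM : 0 < M) :
    ∑ n ∈ range M, (if n % d ∈ I then (1 : ℝ) else 0) * (if n % d' ∈ Ico a e then (1 : ℝ) else 0) ≤
      (M : ℝ) * ((I.card : ℝ) / d * (((Ico a e).card : ℝ) / d') +
        (I.card : ℝ) * (Nat.gcd d d' / ((d : ℝ) * d'))) := by
  have hd : 0 < d := Nat.pos_of_dvd_of_pos h hM
  have hd' : 0 < d' := Nat.pos_of_dvd_of_pos h' hM
  have hg : 0 < Nat.gcd d d' := Nat.gcd_pos_of_pos_left _ hd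
  have hdr : (0 : ℝ) < d := by exact_mod_cast hd
  have hdr' : (0 : ℝ) < d' := by exact_mod_cast hd'
  have hgr : (0 : ℝ) < Nat.gcd d d' := by exact_mod_cast hg
  have e1 : ∑ n ∈ range M, (if n % d ∈ I then (1 : ℝ) else 0) *
      (if n % d' ∈ Ico a e then (1 : ℝ) else 0) =
      ∑ b ∈ I, ∑ b' ∈ Ico a e,
        (((range M).filter (fun n => n % d = b ∧ n % d' = b')).card : ℝ) := by
    have : ∀ n, (if n % d ∈ I then (1 : ℝ) else 0) * (if n % d' ∈ Ico a e then (1 : ℝ) else 0) =
        ∑ b ∈ I, ∑ b' ∈ Ico a e, (if n % d = b ∧ n % d' = b' then (1 : ℝ) else 0) := by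
      intro n
      have s1 : (if n % d ∈ I then (1 : ℝ) else 0) = ∑ b ∈ I, if n % d = b then (1 : ℝ) else 0 := by
        rw [Finset.sum_ite_eq]
      have s2 : (if n % d' ∈ Ico a e then (1 : ℝ) else 0) =
          ∑ b ∈ Ico a e, if n % d' = b then (1 : ℝ) else 0 := by
        rw [Finset.sum_ite_eq]
      rw [s1, s2, Finset.sum_mul_sum]
      apply Finset.sum_congr rfl; intro b _
      apply Finset.sum_congr rfl; intro b' _
      by_cases h1 : n % d = b <;> by_cases h2 : n % d' = b' <;> simp [h1, h2]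
    simp only [this]
    rw [Finset.sum_comm]
    apply Finset.sum_congr rfl; intro b _
    rw [Finset.sum_comm]
    apply Finset.sum_congr rfl; intro b' _
    rw [Finset.card_filter]; push_cast; rfl
  rw [e1]
  have e2 : ∀ b ∈ I, ∑ b' ∈ Ico a e,
      (((range M).filter (fun n => n % d = b ∧ n % d' = b')).card : ℝ) ≤
      (((Ico a e).card : ℝ) / Nat.gcd d d' + 1) * ((M : ℝ) * (Nat.gcd d d' / ((d : ℝ) * d'))) := by
    intro b _
    calc ∑ b' ∈ Ico a e, (((range M).filter (fun n => n % d = b ∧ n % d' = b')).card : ℝ)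
        ≤ ∑ b' ∈ Ico a e, (if b' ≡ b [MOD Nat.gcd d d'] then
            (M : ℝ) * (Nat.gcd d d' / ((d : ℝ) * d')) else 0) :=
          Finset.sum_le_sum (fun b' _ => card_pair d d' M b b' h h' hM)
      _ = (((Ico a e).filter (fun b' => b' ≡ b [MOD Nat.gcd d d'])).card : ℝ) *
            ((M : ℝ) * (Nat.gcd d d' / ((d : ℝ) * d'))) := by
          rw [← Finset.sum_filter, Finset.sum_const, nsmul_eq_mul]
      _ ≤ _ := mul_le_mul_of_nonneg_right (card_cong a e _ b hg) (by positivity)
  refine le_trans (Finset.sum_le_sum e2) ?_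
  rw [Finset.sum_const, nsmul_eq_mul]
  apply le_of_eq
  field_simp

/-- Chebyshev's inequality for a weighted sum of almost independent indicator functions. -/
theorem cheb {ι : Type*} [DecidableEq ι] (P : Finset ι) (w a : ι → ℝ) (e : ι → ι → ℝ) (M : ℕ)
    (ind : ι → ℕ → ℝ) (h01 : ∀ p n, ind p n * ind p n = ind p n) (hw : ∀ p ∈ P, 0 ≤ w p)
    (h1 : ∀ p ∈ P, ∑ n ∈ range M, ind p n = M * a p)
    (h2 : ∀ p ∈ P, ∀ p' ∈ P, p ≠ p' →
      ∑ n ∈ range M, ind p n * ind p' n ≤ M * (a p * a p' + e p p')) :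
    (((range M).filter (fun n => ∀ p ∈ P, ind p n = 0)).card : ℝ) * (∑ p ∈ P, w p * a p) ^ 2 ≤
      M * (∑ p ∈ P, w p ^ 2 * a p +
        ∑ p ∈ P, ∑ p' ∈ P, (if p = p' then 0 else w p * w p' * e p p')) := by
  set X : ℕ → ℝ := fun n => ∑ p ∈ P, w p * ind p n with hX
  set μ := ∑ p ∈ P, w p * a p with hμ
  have s1 : ∑ n ∈ range M, X n = M * μ := by
    rw [hX, hμ, Finset.sum_comm, Finset.mul_sum]
    apply Finset.sum_congr rfl; intro p hp
    rw [← Finset.mul_sum, h1 p hp]; ring
  have s2 : ∑ n ∈ range M, X n ^ 2 ≤ M * (μ ^ 2 + (∑ p ∈ P, w p ^ 2 * a p +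
        ∑ p ∈ P, ∑ p' ∈ P, (if p = p' then 0 else w p * w p' * e p p'))) := by
    have t1 : ∑ n ∈ range M, X n ^ 2 =
        ∑ p ∈ P, ∑ p' ∈ P, w p * w p' * ∑ n ∈ range M, ind p n * ind p' n := by
      have : ∀ n, X n ^ 2 = ∑ p ∈ P, ∑ p' ∈ P, w p * w p' * (ind p n * ind p' n) := by
        intro n
        rw [hX, pow_two, Finset.sum_mul_sum]
        apply Finset.sum_congr rfl; intro p _
        apply Finset.sum_congr rfl; intro p' _
        ring
      simp only [this]
      rw [Finset.sum_comm]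
      apply Finset.sum_congr rfl; intro p _
      rw [Finset.sum_comm]
      apply Finset.sum_congr rfl; intro p' _
      rw [Finset.mul_sum]
    have t2 : (M : ℝ) * (μ ^ 2 + (∑ p ∈ P, w p ^ 2 * a p +
        ∑ p ∈ P, ∑ p' ∈ P, (if p = p' then 0 else w p * w p' * e p p'))) =
        ∑ p ∈ P, ∑ p' ∈ P, (M : ℝ) * (w p * a p * (w p' * a p') +
          (if p = p' then w p ^ 2 * a p else 0) + (if p = p' then 0 else w p * w p' * e p p')) := by
      have u1 : μ ^ 2 = ∑ p ∈ P, ∑ p' ∈ P, w p * a p * (w p' * a p') := by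
        rw [hμ, pow_two, Finset.sum_mul_sum]
      have u2 : ∑ p ∈ P, w p ^ 2 * a p = ∑ p ∈ P, ∑ p' ∈ P, (if p = p' then w p ^ 2 * a p else 0) := by
        apply Finset.sum_congr rfl; intro p hp
        rw [Finset.sum_ite_eq, if_pos hp]
      rw [u1, u2, ← Finset.sum_add_distrib, ← Finset.sum_add_distrib, Finset.mul_sum]
      apply Finset.sum_congr rfl; intro p _
      rw [← Finset.sum_add_distrib, ← Finset.sum_add_distrib, Finset.mul_sum]
      apply Finset.sum_congr rfl; intro p' _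
      ring
    rw [t1, t2]
    apply Finset.sum_le_sum; intro p hp
    apply Finset.sum_le_sum; intro p' hp'
    by_cases hpp : p = p'
    · subst hpp
      rw [if_pos rfl, if_pos rfl]
      simp only [h01]
      rw [h1 p hp]
      have : 0 ≤ (M : ℝ) * (w p * a p * (w p * a p)) := by
        have := mul_self_nonneg (w p * a p)
        positivity
      nlinarith
    · rw [if_neg hpp, if_neg hpp]
      have := mul_le_mul_of_nonneg_left (h2 p hp p' hp' hpp) (mul_nonneg (hw p hp) (hw p' hp'))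
      refine le_trans this (le_of_eq ?_)
      ring
  have s3 : ∑ n ∈ range M, (X n - μ) ^ 2 = ∑ n ∈ range M, X n ^ 2 - M * μ ^ 2 := by
    have : ∀ n, (X n - μ) ^ 2 = X n ^ 2 - 2 * μ * X n + μ ^ 2 := by intro n; ring
    simp only [this]
    rw [Finset.sum_add_distrib, Finset.sum_sub_distrib, ← Finset.mul_sum, s1, Finset.sum_const,
      Finset.card_range, nsmul_eq_mul]
    ring
  have s4 : (((range M).filter (fun n => ∀ p ∈ P, ind p n = 0)).card : ℝ) * μ ^ 2 ≤
      ∑ n ∈ range M, (X n - μ) ^ 2 := by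
    rw [← nsmul_eq_mul, ← Finset.sum_const]
    calc ∑ n ∈ (range M).filter (fun n => ∀ p ∈ P, ind p n = 0), μ ^ 2
        = ∑ n ∈ (range M).filter (fun n => ∀ p ∈ P, ind p n = 0), (X n - μ) ^ 2 := by
          apply Finset.sum_congr rfl
          intro n hn
          rw [Finset.mem_filter] at hn
          have : X n = 0 := Finset.sum_eq_zero (fun p hp => by rw [hn.2 p hp, mul_zero])
          rw [this]; ring
      _ ≤ _ := Finset.sum_le_sum_of_subset_of_nonneg (Finset.filter_subset _ _)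
          (fun _ _ _ => sq_nonneg _)
  rw [s3] at s4
  linarith

end Pool.Agent.H233R3.USS
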