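import Pool.Agent.H233R3.USS.C1
import Pool.Agent.H684R3.USS.Stmts

set_option autoImplicit false

/-!
# Task C (one block of primes catches almost all `n`)
-/

namespace Pool.Agent.H233R3.USS

open Finset Pool.Agent.H692R2.USS
open scoped Classical

theorem mem_I (c β l r : ℕ) (hc : 0 < c) : r ∈ Ico β (l / c) ↔ β ≤ r ∧ c * (r + 1) ≤ l := by
  rw [Finset.mem_Ico, ← Nat.succ_le_iff, Nat.le_div_iff_mul_le hc, mul_comm]

theorem low_I (c β l : ℕ) (hc : 0 < c) (h : 2 * c * (1 + β) ≤ l) :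
    l + 1 ≤ 2 * c * (Ico β (l / c)).card := by
  rw [Nat.card_Ico]
  have h1 : 2 * (1 + β) ≤ l / c := by
    rw [Nat.le_div_iff_mul_le hc]
    calc 2 * (1 + β) * c = 2 * c * (1 + β) := by ring
      _ ≤ l := h
  have h2 : l < c * (l / c + 1) := Nat.lt_mul_div_succ l hc
  obtain ⟨j, hj⟩ := Nat.exists_eq_add_of_le (show β ≤ l / c by omega)
  rw [hj] at h1 h2 ⊢
  rw [Nat.add_sub_cancel_left]
  have h3 : β + 1 ≤ j := by omega
  have h4 : c * (β + 1) ≤ c * j := Nat.mul_le_mul_left c h3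
  nlinarith

theorem card_I_le (c β l : ℕ) : (Ico β (l / c)).card ≤ l := by
  rw [Nat.card_Ico]; exact le_trans (Nat.sub_le _ _) (Nat.div_le_self _ _)

theorem sub_I (c β p : ℕ) (hp : 0 < p) : Ico β (Nat.log 2 p / c) ⊆ range (p - 1) := by
  intro r hr
  rw [Finset.mem_Ico] at hr
  have h1 := Nat.div_le_self (Nat.log 2 p) c
  have h2 := Nat.log_lt_self 2 (by omega : p ≠ 0)
  rw [Finset.mem_range]; omega

/-- lower bound of the mean -/
theorem mean_low (k β x L c : ℕ) (hc : 0 < c) (c' C' : ℝ)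
    (hM : c' * Real.log L - C' ≤
      ∑ p ∈ (range (2 ^ L)).filter (fun p => p.Prime ∧ SplitAll k p), (1 : ℝ) / p) (y : ℕ)
    (hy : y = max x (2 ^ (2 * c * (1 + β)))) :
    c' / (2 * c) * Real.log L - (C' + y) / (2 * c) ≤
      ∑ p ∈ (range (2 ^ L)).filter (fun p => p.Prime ∧ SplitAll k p ∧ x ≤ p),
        (1 / ((Nat.log 2 p : ℝ) + 1)) *
          (((Ico β (Nat.log 2 p / c)).card : ℝ) / ((p - 1 : ℕ) : ℝ)) := by
  have hcr : (0 : ℝ) < c := by exact_mod_cast hc
  set f : ℕ → ℝ := fun p => (1 / ((Nat.log 2 p : ℝ) + 1)) *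
          (((Ico β (Nat.log 2 p / c)).card : ℝ) / ((p - 1 : ℕ) : ℝ)) with hf
  have hf0 : ∀ p, 0 ≤ f p := fun p => by rw [hf]; positivity
  set P0 := (range (2 ^ L)).filter (fun p => p.Prime ∧ SplitAll k p) with hP0
  have e1 : ∑ p ∈ P0, (1 : ℝ) / p = ∑ p ∈ P0.filter (fun p => p < y), (1 : ℝ) / p +
      ∑ p ∈ P0.filter (fun p => ¬ p < y), (1 : ℝ) / p :=
    (Finset.sum_filter_add_sum_filter_not _ _ _).symm
  have e2 : ∑ p ∈ P0.filter (fun p => p < y), (1 : ℝ) / p ≤ y := by
    calc ∑ p ∈ P0.filter (fun p => p < y), (1 : ℝ) / p ≤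
        ∑ p ∈ P0.filter (fun p => p < y), (1 : ℝ) := by
          apply Finset.sum_le_sum
          intro p hp
          rw [hP0, Finset.mem_filter, Finset.mem_filter] at hp
          have : (1 : ℝ) ≤ p := by exact_mod_cast hp.1.2.1.one_lt.le
          rw [div_le_one (by linarith)]
          exact this
      _ ≤ ∑ p ∈ range y, (1 : ℝ) := by
          apply Finset.sum_le_sum_of_subset_of_nonneg
          · intro p hp
            rw [Finset.mem_filter] at hp
            exact Finset.mem_range.2 hp.2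
          · intros; norm_num
      _ = y := by simp
  have e3 : ∑ p ∈ P0.filter (fun p => ¬ p < y), (1 : ℝ) / p ≤
      ∑ p ∈ (range (2 ^ L)).filter (fun p => p.Prime ∧ SplitAll k p ∧ x ≤ p), 2 * c * f p := by
    calc ∑ p ∈ P0.filter (fun p => ¬ p < y), (1 : ℝ) / p ≤
        ∑ p ∈ P0.filter (fun p => ¬ p < y), 2 * c * f p := by
          apply Finset.sum_le_sum
          intro p hp
          rw [hP0, Finset.mem_filter, Finset.mem_filter, not_lt] at hp
          obtain ⟨⟨_, hpp, _⟩, hyp⟩ := hp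
          have h2 : 2 ≤ p := hpp.two_le
          have hl : 2 * c * (1 + β) ≤ Nat.log 2 p := by
            apply Nat.le_log_of_pow_le (by norm_num)
            exact le_trans (le_trans (le_max_right _ _) hy.ge) hyp
          have h3 := low_I c β (Nat.log 2 p) hc hl
          have h3' : (Nat.log 2 p : ℝ) + 1 ≤ 2 * c * ((Ico β (Nat.log 2 p / c)).card : ℝ) := by
            exact_mod_cast h3
          have hl0 : (0 : ℝ) < (Nat.log 2 p : ℝ) + 1 := by positivity
          have hp1 : (0 : ℝ) < ((p - 1 : ℕ) : ℝ) := by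
            have : 0 < p - 1 := by omega
            exact_mod_cast this
          have hp2 : ((p - 1 : ℕ) : ℝ) ≤ p := by
            have : p - 1 ≤ p := Nat.sub_le _ _
            exact_mod_cast this
          have : 2 * c * f p = (2 * c * ((Ico β (Nat.log 2 p / c)).card : ℝ)) /
              ((Nat.log 2 p : ℝ) + 1) / ((p - 1 : ℕ) : ℝ) := by
            rw [hf]; field_simp
          rw [this]
          have g1 : 1 ≤ (2 * c * ((Ico β (Nat.log 2 p / c)).card : ℝ)) /
              ((Nat.log 2 p : ℝ) + 1) := by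
            rw [le_div_iff₀ hl0]; linarith
          calc (1 : ℝ) / p ≤ 1 / ((p - 1 : ℕ) : ℝ) := one_div_le_one_div_of_le hp1 hp2
            _ ≤ _ := div_le_div_of_nonneg_right g1 hp1.le
      _ ≤ _ := by
          apply Finset.sum_le_sum_of_subset_of_nonneg
          · intro p hp
            rw [hP0, Finset.mem_filter, Finset.mem_filter, not_lt] at hp
            rw [Finset.mem_filter]
            exact ⟨hp.1.1, hp.1.2.1, hp.1.2.2, le_trans (le_trans (le_max_left _ _) hy.ge) hp.2⟩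
          · intro p _ _
            have := hf0 p
            positivity
  rw [← Finset.mul_sum] at e3
  have e4 : c' * Real.log L - C' - y ≤ 2 * c *
      ∑ p ∈ (range (2 ^ L)).filter (fun p => p.Prime ∧ SplitAll k p ∧ x ≤ p), f p := by
    linarith
  have e5 : c' / (2 * c) * Real.log L - (C' + y) / (2 * c) = (c' * Real.log L - C' - y) / (2 * c) := by
    ring
  rw [e5, div_le_iff₀ (by positivity)]
  linarith

/-- upper bound of the variance -/
theorem var_up (L β c : ℕ) (hc : 2 ≤ c) (P : Finset ℕ)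
    (hP : P ⊆ (range (2 ^ L)).filter Nat.Prime)
    (w a : ℕ → ℝ) (e : ℕ → ℕ → ℝ)
    (hw : ∀ p, w p = 1 / ((Nat.log 2 p : ℝ) + 1))
    (ha : ∀ p, a p = ((Ico β (Nat.log 2 p / c)).card : ℝ) / ((p - 1 : ℕ) : ℝ))
    (he : ∀ p p', e p p' = if p < p' then
      ((Ico β (Nat.log 2 p / c)).card : ℝ) *
        (Nat.gcd (p - 1) (p' - 1) / (((p - 1 : ℕ) : ℝ) * ((p' - 1 : ℕ) : ℝ)))
      else ((Ico β (Nat.log 2 p' / c)).card : ℝ) *
        (Nat.gcd (p' - 1) (p - 1) / (((p' - 1 : ℕ) : ℝ) * ((p - 1 : ℕ) : ℝ)))) :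
    ∑ p ∈ P, w p ^ 2 * a p + ∑ p ∈ P, ∑ p' ∈ P, (if p = p' then 0 else w p * w p' * e p p') ≤
      3 * ∑ p' ∈ (Finset.range (2 ^ L)).filter Nat.Prime,
        ∑ p ∈ (Finset.range p').filter Nat.Prime,
        ((Nat.gcd (p - 1) (p' - 1) : ℕ) : ℝ) /
          (((p : ℝ) - 1) * ((p' : ℝ) - 1) * ((Nat.log 2 p' : ℝ) + 1)) := by
  set Q := (Finset.range (2 ^ L)).filter Nat.Prime with hQ
  set G : ℕ → ℕ → ℝ := fun p p' => ((Nat.gcd (p - 1) (p' - 1) : ℕ) : ℝ) /
          (((p : ℝ) - 1) * ((p' : ℝ) - 1) * ((Nat.log 2 p' : ℝ) + 1)) with hG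
  have hG0 : ∀ p p' : ℕ, p.Prime → p'.Prime → 0 ≤ G p p' := by
    intro p p' hp hp'
    have h1 : (1 : ℝ) ≤ p := by exact_mod_cast hp.one_lt.le
    have h2 : (1 : ℝ) ≤ p' := by exact_mod_cast hp'.one_lt.le
    rw [hG]
    have h3 : 0 ≤ (p : ℝ) - 1 := by linarith
    have h4 : 0 ≤ (p' : ℝ) - 1 := by linarith
    positivity
  have hPp : ∀ p ∈ P, p.Prime := fun p hp => (Finset.mem_filter.1 (hP hp)).2
  have hw0 : ∀ p, 0 ≤ w p := fun p => by rw [hw]; positivity
  have hwm : ∀ p, w p * ((Ico β (Nat.log 2 p / c)).card : ℝ) ≤ 1 := by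
    intro p
    rw [hw]
    have h1 : ((Ico β (Nat.log 2 p / c)).card : ℝ) ≤ (Nat.log 2 p : ℝ) := by
      exact_mod_cast card_I_le c β (Nat.log 2 p)
    have h2 : (0 : ℝ) < (Nat.log 2 p : ℝ) + 1 := by positivity
    rw [one_div, inv_mul_eq_div, div_le_one h2]
    linarith
  have hcast : ∀ p : ℕ, p.Prime → ((p - 1 : ℕ) : ℝ) = (p : ℝ) - 1 := by
    intro p hp
    rw [Nat.cast_sub hp.one_lt.le, Nat.cast_one]
  have hpos : ∀ p : ℕ, p.Prime → (0 : ℝ) < (p : ℝ) - 1 := by
    intro p hp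
    have h1 : (1 : ℝ) < p := by exact_mod_cast hp.one_lt
    linarith
  -- key termwise bound
  have key : ∀ p ∈ P, ∀ p' ∈ P, p < p' → w p * w p' * e p p' ≤ G p p' := by
    intro p hp p' hp' hlt
    rw [he, if_pos hlt, hcast p (hPp p hp), hcast p' (hPp p' hp'), hG]
    have h1 := hpos p (hPp p hp)
    have h2 := hpos p' (hPp p' hp')
    have h3 : (0 : ℝ) ≤ w p' * ((Nat.gcd (p - 1) (p' - 1) : ℕ) / (((p : ℝ) - 1) * ((p' : ℝ) - 1))) := by
      have := hw0 p'
      positivity
    calc w p * w p' * (((Ico β (Nat.log 2 p / c)).card : ℝ) *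
          ((Nat.gcd (p - 1) (p' - 1) : ℕ) / (((p : ℝ) - 1) * ((p' : ℝ) - 1))))
        = (w p * ((Ico β (Nat.log 2 p / c)).card : ℝ)) *
          (w p' * ((Nat.gcd (p - 1) (p' - 1) : ℕ) / (((p : ℝ) - 1) * ((p' : ℝ) - 1)))) := by ring
      _ ≤ 1 * (w p' * ((Nat.gcd (p - 1) (p' - 1) : ℕ) / (((p : ℝ) - 1) * ((p' : ℝ) - 1)))) :=
          mul_le_mul_of_nonneg_right (hwm p) h3
      _ = _ := by
          rw [hw p', one_mul]
          have h4 : (0 : ℝ) < (Nat.log 2 p' : ℝ) + 1 := by positivity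
          field_simp
  have hsymm : ∀ p p', p ≠ p' → e p p' = e p' p := by
    intro p p' hne
    rw [he, he]
    rcases lt_or_gt_of_ne hne with h | h
    · rw [if_pos h, if_neg (by omega)]
    · rw [if_neg (by omega), if_pos h]
  have hin : ∀ p' ∈ P, ∑ p ∈ P, (if p < p' then w p * w p' * e p p' else 0) ≤
      ∑ p ∈ (range p').filter Nat.Prime, G p p' := by
    intro p' hp'
    rw [← Finset.sum_filter]
    calc ∑ p ∈ P.filter (fun p => p < p'), w p * w p' * e p p' ≤
        ∑ p ∈ P.filter (fun p => p < p'), G p p' := by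
          apply Finset.sum_le_sum
          intro p hp
          rw [Finset.mem_filter] at hp
          exact key p hp.1 p' hp' hp.2
      _ ≤ _ := by
          apply Finset.sum_le_sum_of_subset_of_nonneg
          · intro p hp
            rw [Finset.mem_filter] at hp ⊢
            exact ⟨Finset.mem_range.2 hp.2, hPp p hp.1⟩
          · intro p hp _
            rw [Finset.mem_filter] at hp
            exact hG0 p p' hp.2 (hPp p' hp')
  have hout : ∑ p' ∈ P, ∑ p ∈ (range p').filter Nat.Prime, G p p' ≤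
      ∑ p' ∈ Q, ∑ p ∈ (range p').filter Nat.Prime, G p p' := by
    apply Finset.sum_le_sum_of_subset_of_nonneg hP
    intro p' hp' _
    apply Finset.sum_nonneg
    intro p hp
    exact hG0 p p' (Finset.mem_filter.1 hp).2 (Finset.mem_filter.1 hp').2
  -- diagonal
  have hdiag : ∑ p ∈ P, w p ^ 2 * a p ≤ ∑ p' ∈ P, ∑ p ∈ (range p').filter Nat.Prime, G p p' := by
    apply Finset.sum_le_sum
    intro p' hp'
    have hpr := hPp p' hp'
    rcases Nat.lt_or_ge 2 p' with h2 | h2
    · have hmem : 2 ∈ (range p').filter Nat.Prime :=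
        Finset.mem_filter.2 ⟨Finset.mem_range.2 h2, Nat.prime_two⟩
      refine le_trans ?_ (Finset.single_le_sum (f := fun p => G p p') (fun p hp =>
        hG0 p p' (Finset.mem_filter.1 hp).2 hpr) hmem)
      have h1 := hpos p' hpr
      have h4 : (0 : ℝ) < (Nat.log 2 p' : ℝ) + 1 := by positivity
      have hgcd : Nat.gcd (2 - 1) (p' - 1) = 1 := by simp
      have hG2 : G 2 p' = 1 / (((p' : ℝ) - 1) * ((Nat.log 2 p' : ℝ) + 1)) := by
        rw [hG]
        simp only [hgcd]
        norm_num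
      rw [hG2, ha, hcast p' hpr]
      calc w p' ^ 2 * (((Ico β (Nat.log 2 p' / c)).card : ℝ) / ((p' : ℝ) - 1)) =
          (w p' * ((Ico β (Nat.log 2 p' / c)).card : ℝ)) * (w p' / ((p' : ℝ) - 1)) := by ring
        _ ≤ 1 * (w p' / ((p' : ℝ) - 1)) := by
            apply mul_le_mul_of_nonneg_right (hwm p')
            have := hw0 p'
            positivity
        _ = _ := by rw [hw p']; field_simp
    · have h3 : p' = 2 := le_antisymm h2 hpr.two_le
      subst h3
      have h0 : Nat.log 2 2 / c = 0 := by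
        have : Nat.log 2 2 = 1 := by norm_num
        rw [this]
        exact Nat.div_eq_of_lt (by omega)
      rw [ha, h0]
      simp only [Nat.card_Ico, Nat.zero_sub, Nat.cast_zero, zero_div, mul_zero]
      apply Finset.sum_nonneg
      intro p hp
      exact hG0 p 2 (Finset.mem_filter.1 hp).2 Nat.prime_two
  -- off-diagonal
  have hsplit : ∑ p ∈ P, ∑ p' ∈ P, (if p = p' then 0 else w p * w p' * e p p') =
      2 * ∑ p' ∈ P, ∑ p ∈ P, (if p < p' then w p * w p' * e p p' else 0) := by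
    have s1 : ∑ p ∈ P, ∑ p' ∈ P, (if p = p' then 0 else w p * w p' * e p p') =
        ∑ p ∈ P, ∑ p' ∈ P, (if p < p' then w p * w p' * e p p' else 0) +
        ∑ p ∈ P, ∑ p' ∈ P, (if p' < p then w p' * w p * e p' p else 0) := by
      rw [← Finset.sum_add_distrib]
      apply Finset.sum_congr rfl; intro p _
      rw [← Finset.sum_add_distrib]
      apply Finset.sum_congr rfl; intro p' _
      rcases lt_trichotomy p p' with h | h | h
      · rw [if_neg (by omega), if_pos h, if_neg (by omega), add_zero]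
      · rw [if_pos h, if_neg (by omega), if_neg (by omega), add_zero]
      · rw [if_neg (by omega), if_neg (by omega), if_pos h, zero_add, hsymm p p' (by omega)]
        ring
    rw [s1, Finset.sum_comm]
    ring
  have hoff : ∑ p' ∈ P, ∑ p ∈ P, (if p < p' then w p * w p' * e p p' else 0) ≤
      ∑ p' ∈ P, ∑ p ∈ (range p').filter Nat.Prime, G p p' := Finset.sum_le_sum hin
  rw [hsplit]
  linarith

/-- choice of the block length -/
theorem choose_L (a b C ε : ℝ) (ha : 0 < a) (hC : 0 < C) (hε : 0 < ε) :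
    ∃ L : ℕ, 1 ≤ L ∧ 0 < a * Real.log L - b ∧
      3 * (C * (1 + Real.log ((L : ℝ) + 1))) ≤ ε * (a * Real.log L - b) ^ 2 := by
  set T0 := max 1 (max (2 * b / a) (36 * C / (ε * a ^ 2))) with hT0
  refine ⟨⌈Real.exp T0⌉₊, ?_, ?_, ?_⟩
  · exact Nat.one_le_iff_ne_zero.2 (Nat.ceil_pos.2 (Real.exp_pos _)).ne'
  all_goals
    have hL : Real.exp T0 ≤ (⌈Real.exp T0⌉₊ : ℝ) := Nat.le_ceil _
    have hLpos : (0 : ℝ) < (⌈Real.exp T0⌉₊ : ℝ) := lt_of_lt_of_le (Real.exp_pos _) hL
    have hT : T0 ≤ Real.log (⌈Real.exp T0⌉₊ : ℝ) := by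
      rw [Real.le_log_iff_exp_le hLpos]; exact hL
    generalize hLL : (⌈Real.exp T0⌉₊ : ℝ) = L at *
    set T := Real.log L with hTdef
    have h1 : 1 ≤ T := le_trans (le_max_left _ _) hT
    have h2 : 2 * b / a ≤ T := le_trans (le_trans (le_max_left _ _) (le_max_right _ _)) hT
    have h3 : 36 * C / (ε * a ^ 2) ≤ T :=
      le_trans (le_trans (le_max_right _ _) (le_max_right _ _)) hT
    rw [div_le_iff₀ ha] at h2
    rw [div_le_iff₀ (by positivity)] at h3
    have h4 : a * T / 2 ≤ a * T - b := by linarith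
    have h5 : 0 < a * T / 2 := by positivity
  · linarith
  · have h6 : Real.log (L + 1) ≤ T + 1 := by
      have hL1 : 1 ≤ L := by
        have : Real.exp 0 ≤ Real.exp T0 := Real.exp_le_exp.2 (by linarith [le_max_left 1 (max (2 * b / a) (36 * C / (ε * a ^ 2)))])
        rw [Real.exp_zero] at this
        linarith
      calc Real.log (L + 1) ≤ Real.log (L * 2) := by
            apply Real.log_le_log (by linarith); linarith
        _ = T + Real.log 2 := by
            rw [Real.log_mul hLpos.ne' (by norm_num)]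
        _ ≤ T + 1 := by
            have := Real.log_two_lt_d9
            linarith
    have h7 : 3 * (C * (1 + Real.log (L + 1))) ≤ 9 * C * T := by
      have : 1 + Real.log (L + 1) ≤ 3 * T := by linarith
      nlinarith
    have h8 : (a * T / 2) ^ 2 ≤ (a * T - b) ^ 2 := pow_le_pow_left₀ h5.le h4 2
    have h9 : 9 * C * T ≤ ε * (a * T / 2) ^ 2 := by
      have : 36 * C * T ≤ T * (ε * a ^ 2) * T := mul_le_mul_of_nonneg_right h3 (by linarith)
      nlinarith
    calc 3 * (C * (1 + Real.log (L + 1))) ≤ 9 * C * T := h7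
      _ ≤ ε * (a * T / 2) ^ 2 := h9
      _ ≤ _ := mul_le_mul_of_nonneg_left h8 hε.le

theorem taskC : Pool.Agent.H684R3.USS.TaskC := by
  rintro ⟨C, hC, hGS⟩ k hk ⟨c', C', hc', hMass⟩ β x ε hε
  set c := 4 * k * (k + 1) with hcdef
  have hc8 : 8 ≤ c := by rw [hcdef]; nlinarith
  have hc0 : 0 < c := by omega
  have hcr : (0 : ℝ) < c := by exact_mod_cast hc0
  set y := max x (2 ^ (2 * c * (1 + β))) with hy
  obtain ⟨L, hL1, hLpos, hLle⟩ := choose_L (c' / (2 * c)) ((C' + y) / (2 * c)) C ε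
    (by positivity) hC hε
  refine ⟨L, ?_⟩
  intro M hM hdvd
  set P := (range (2 ^ L)).filter (fun p => p.Prime ∧ SplitAll k p ∧ x ≤ p) with hP
  have hPsub : P ⊆ (range (2 ^ L)).filter Nat.Prime := by
    intro p hp
    rw [hP, Finset.mem_filter] at hp
    rw [Finset.mem_filter]
    exact ⟨hp.1, hp.2.1⟩
  have hPp : ∀ p ∈ P, p.Prime := fun p hp => (Finset.mem_filter.1 (hPsub hp)).2
  have hPd : ∀ p ∈ P, (p - 1) ∣ M := fun p hp =>
    hdvd p (hPp p hp) (Finset.mem_range.1 (Finset.mem_filter.1 (hPsub hp)).1)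
  set w : ℕ → ℝ := fun p => 1 / ((Nat.log 2 p : ℝ) + 1) with hw
  set a : ℕ → ℝ := fun p => ((Ico β (Nat.log 2 p / c)).card : ℝ) / ((p - 1 : ℕ) : ℝ) with ha
  set e : ℕ → ℕ → ℝ := fun p p' => if p < p' then
      ((Ico β (Nat.log 2 p / c)).card : ℝ) *
        (Nat.gcd (p - 1) (p' - 1) / (((p - 1 : ℕ) : ℝ) * ((p' - 1 : ℕ) : ℝ)))
      else ((Ico β (Nat.log 2 p' / c)).card : ℝ) *
        (Nat.gcd (p' - 1) (p - 1) / (((p' - 1 : ℕ) : ℝ) * ((p - 1 : ℕ) : ℝ))) with he
  set ind : ℕ → ℕ → ℝ := fun p n => if n % (p - 1) ∈ Ico β (Nat.log 2 p / c) then 1 else 0 with hind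
  have hch := cheb P w a e M ind
    (by intro p n; rw [hind]; dsimp only; split_ifs <;> norm_num)
    (by intro p _; rw [hw]; positivity)
    (by
      intro p hp
      rw [hind, ha]
      exact sum_ind (p - 1) M (hPd p hp) hM _ (sub_I c β p (hPp p hp).pos))
    (by
      intro p hp p' hp' hne
      rcases lt_or_gt_of_ne hne with h | h
      · have := sum_pair (p - 1) (p' - 1) M β (Nat.log 2 p' / c) (Ico β (Nat.log 2 p / c))
          (hPd p hp) (hPd p' hp') hM
        simp only [hind, ha, he]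
        rw [if_pos h]
        exact this
      · have := sum_pair (p' - 1) (p - 1) M β (Nat.log 2 p / c) (Ico β (Nat.log 2 p' / c))
          (hPd p' hp') (hPd p hp) hM
        simp only [hind, ha, he]
        rw [if_neg (by omega)]
        refine le_trans (le_of_eq ?_) (le_trans this (le_of_eq ?_))
        · apply Finset.sum_congr rfl; intro n _; rw [mul_comm]
        · ring)
  have hvar := var_up L β c (by omega) P hPsub w a e (fun _ => rfl) (fun _ => rfl)
    (fun _ _ => rfl)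
  have hmean := mean_low k β x L c hc0 c' C' (hMass L hL1) y hy
  generalize hμ : ∑ p ∈ P, w p * a p = μ at hch
  have hmean' : c' / (2 * c) * Real.log L - (C' + y) / (2 * c) ≤ μ := by
    rw [← hμ]; exact hmean
  clear hmean
  have hμpos : 0 < μ := lt_of_lt_of_le hLpos hmean'
  have hfin : (((range M).filter (fun n => ∀ p ∈ P, ind p n = 0)).card : ℝ) * μ ^ 2 ≤
      (ε * M) * μ ^ 2 := by
    refine le_trans hch ?_
    have h1 := le_trans hvar (mul_le_mul_of_nonneg_left (hGS L) (by norm_num : (0 : ℝ) ≤ 3))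
    have h2 := le_trans h1 hLle
    have h3 : (c' / (2 * c) * Real.log L - (C' + y) / (2 * c)) ^ 2 ≤ μ ^ 2 :=
      pow_le_pow_left₀ hLpos.le hmean' 2
    have h4 := le_trans h2 (mul_le_mul_of_nonneg_left h3 hε.le)
    refine le_trans (mul_le_mul_of_nonneg_left h4 (Nat.cast_nonneg M)) (le_of_eq ?_)
    ring
  have hμ2 : 0 < μ ^ 2 := pow_pos hμpos 2
  have hfin2 := le_of_mul_le_mul_right hfin hμ2
  refine le_trans ?_ hfin2
  have hsub : ((Finset.range M).filter (fun n => ∀ p, p.Prime → SplitAll k p → x ≤ p → p < 2 ^ L →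
    ¬ (β ≤ n % (p - 1) ∧ c * (n % (p - 1) + 1) ≤ Nat.log 2 p))) ⊆
      (range M).filter (fun n => ∀ p ∈ P, ind p n = 0) := by
    intro n hn
    rw [Finset.mem_filter] at hn ⊢
    refine ⟨hn.1, ?_⟩
    intro p hp
    rw [hP, Finset.mem_filter] at hp
    have h1 := hn.2 p hp.2.1 hp.2.2.1 hp.2.2.2 (Finset.mem_range.1 hp.1)
    rw [← mem_I c β (Nat.log 2 p) _ hc0] at h1
    simp only [hind]
    rw [if_neg h1]
  exact_mod_cast Finset.card_le_card hsub

end Pool.Agent.H233R3.USS
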